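import Pool.Agent.R121.PQ

set_option autoImplicit false

/-!
# Odd integers as a prime plus `x (x + 1)`, in every residue class of every modulus

For every modulus `q ≤ N ^ (1 / 2 - ρ)` with at most `(log N)^T` divisors, without any exceptional moduli, and every
residue class `b` modulo `q` with `gcd(4 b + 1, q) ≤ (log N)^T`, all but at most `N / (q (log N)^A)` of the odd `n ≤ N`,
`n ≡ b (mod q)`, are of the form `p + x (x + 1)`, `x ≥ 1`, with the asymptotic formula of Hardy and Littlewood for the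
number of the representations with `x ≤ y`, up to `√N / (log N)^C`, for all `y` with `y (y + 1) < n`.

The main input is the theorem `fin_sb` of the team development `R460/SB` (circle method in a residue class).
-/

namespace Pool.Agent.Results.MP_3f6540_nt.EveryModulus

open Finset

/-- The singular series, with the product truncated at `z`; `4 n + 1` is the discriminant of `x² + x - n`. -/
noncomputable def S (n z : ℕ) : ℝ :=
  2 * ∏ w ∈ (Icc 3 z).filter Nat.Prime, (1 - (jacobiSym (4 * n + 1) w : ℝ) / ((w : ℝ) - 1))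

/-- The sum of `log p` over the solutions of `n = p + x (x + 1)` with `p` prime and `1 ≤ x ≤ y`. -/
noncomputable def Rep (n y : ℕ) : ℝ :=
  ∑ x ∈ Icc 1 y, if (n - x * (x + 1)).Prime then Real.log ((n - x * (x + 1) : ℕ) : ℝ) else 0

/-- The conclusion for one integer `n`. -/
def Good (C N z n : ℕ) : Prop :=
  (∃ p x : ℕ, p.Prime ∧ 1 ≤ x ∧ n = p + x * (x + 1)) ∧
  ∀ y : ℕ, y * (y + 1) < n → |Rep n y - S n z * y| ≤ Real.sqrt N / Real.log N ^ C

open Classical in
/-- The number of the odd `n ≤ N`, `n ≡ b (mod q)`, for which the conclusion fails. -/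
noncomputable def exceptions (C N z q b : ℕ) : ℕ :=
  ((Icc 1 N).filter (fun n => Odd n ∧ n ≡ b [MOD q] ∧ ¬ Good C N z n)).card

theorem result (ρ : ℝ) (hρ : 0 < ρ) (A C T : ℕ) :
    ∃ B : ℕ, ∀ E : ℕ, ∃ N₀ : ℕ, ∀ N : ℕ, N₀ ≤ N →
      ∀ z : ℕ, Real.log N ^ B ≤ z → (z : ℝ) ≤ Real.log N ^ E →
      ∀ q : ℕ, 1 ≤ q → (q : ℝ) ≤ (N : ℝ) ^ (1 / 2 - ρ) → (q.divisors.card : ℝ) ≤ Real.log N ^ T →
      ∀ b : ℕ, (Nat.gcd (4 * b + 1) q : ℝ) ≤ Real.log N ^ T →
        (exceptions C N z q b : ℝ) ≤ N / (q * Real.log N ^ A) := by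
  classical
  obtain ⟨B, hB⟩ := Pool.Agent.R121.PQ.fin_pos 1 1 le_rfl ρ hρ A C T
  refine ⟨B + 1, fun E => ?_⟩
  obtain ⟨N₀, h0⟩ := hB E
  obtain ⟨N₁, h1⟩ := Filter.eventually_atTop.1 (Pool.Agent.Y614.GJ.Core.ev_log 1 (s := 1) (by norm_num) 8)
  refine ⟨N₀ + N₁, fun N hN z hz1 hz2 q hq1 hqN hτ b hb => ?_⟩
  have hL8 := (h1 N (by omega)).1
  have hL1 : 1 ≤ Real.log N := by linarith
  have hz1' : Real.log N ^ B ≤ z := (pow_le_pow_right₀ hL1 (by omega)).trans hz1
  have hz : 2 ≤ z := by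
    have k1 : (8 : ℝ) ≤ z := by
      refine le_trans ?_ hz1
      calc (8 : ℝ) ≤ Real.log N ^ 1 := by rw [pow_one]; exact hL8
        _ ≤ Real.log N ^ (B + 1) := pow_le_pow_right₀ hL1 (by omega)
    have : 8 ≤ z := by exact_mod_cast k1
    omega
  have h2 := h0 N (by omega) z hz1' hz2 q hq1 hqN hτ b (by
      have e2 : (4 * ((1 : ℕ) : ℤ) * b + ((1 : ℕ) : ℤ) ^ 2 : ℤ) = ((4 * b + 1 : ℕ) : ℤ) := by
        push_cast
        ring
      rw [e2, Int.gcd_natCast_natCast]
      exact hb)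
  refine le_trans ?_ h2
  unfold exceptions
  have hsub : (Icc 1 N).filter (fun n => Odd n ∧ n ≡ b [MOD q] ∧ ¬ Good C N z n) ⊆
      (Icc 1 N).filter (fun n => n ≡ b [MOD q] ∧ ¬ Pool.Agent.R121.PQ.GoodP 1 1 C N z n) := by
    intro n hn
    rw [mem_filter] at hn ⊢
    obtain ⟨n1, n2, n3, n4⟩ := hn
    refine ⟨n1, n3, fun hg => n4 ?_⟩
    have hpr : ∀ x : ℕ, 1 * x ^ 2 + 1 * x = x * (x + 1) := fun x => by ring
    have hS : Pool.Agent.R460.SB.Sz ((1 : ℕ) : ℤ) ((1 : ℕ) : ℤ) (n : ℤ) z = S n z := by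
      unfold S
      apply Pool.Agent.R121.PQ.Sz_odd _ _ _ (4 * (n : ℤ) + 1) z hz
      · apply Pool.Agent.R121.PQ.nu_two_zero
        intro r hr
        rcases n2 with ⟨t, ht⟩
        obtain ⟨s, hs⟩ := hr
        obtain ⟨u, hu⟩ : Even ((r : ℤ) * (r + 1)) := Int.even_mul_succ_self _
        have e : (n : ℤ) - (((1 : ℕ) : ℤ) * (r : ℤ) ^ 2 + ((1 : ℕ) : ℤ) * (r : ℤ)) = n - (r : ℤ) * (r + 1) := by
          push_cast
          ring
        rw [e, hu, ht] at hs
        push_cast at hs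
        omega
      · intro p hp h2 h3
        have h4 : p ∣ 1 := by exact_mod_cast h3
        exact hp.one_lt.ne' (Nat.dvd_one.1 h4)
      · intro p hp h2
        congr 1
    have hRep : ∀ y : ℕ, Pool.Agent.R121.PQ.RepP 1 1 n y = Rep n y := by
      intro y
      unfold Pool.Agent.R121.PQ.RepP Rep
      simp only [hpr]
    refine ⟨?_, fun y hy => ?_⟩
    · have hloc : ∀ p : ℕ, p.Prime → ∃ m : ℕ, ¬ (p : ℤ) ∣ Pool.Agent.R460.SB.fv ((1 : ℕ) : ℤ) ((1 : ℕ) : ℤ) (n : ℤ) m := by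
        intro p hp
        by_contra hno
        push Not at hno
        have k0 := hno 0
        have k1 := hno 1
        unfold Pool.Agent.R460.SB.fv at k0 k1
        have k2 := dvd_sub k0 k1
        push_cast at k0 k2
        ring_nf at k0 k2
        have k3 : p ∣ 2 := by exact_mod_cast k2
        have k4 : p = 2 := (Nat.prime_dvd_prime_iff_eq hp Nat.prime_two).1 k3
        subst k4
        have k5 : 2 ∣ n := by exact_mod_cast k0
        rcases n2 with ⟨t, ht⟩
        omega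
      obtain ⟨p, m, h5, h6, h7⟩ := hg.1 hloc
      exact ⟨p, m, h5, h6, by rw [h7]; ring⟩
    · have h5 := hg.2 y (by rw [hpr]; exact hy)
      rw [hS, hRep] at h5
      exact h5
  exact_mod_cast card_le_card hsub

end Pool.Agent.Results.MP_3f6540_nt.EveryModulus
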